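import Pool.Agent.H9.JH.Main
import Pool.Agent.H9.JF.Transfer
import Pool.Agent.H9.JF.Twelve

set_option autoImplicit false

/-!
# The smallest dimension of a nilpotent exceptional Jordan algebra is 12

Over every field of characteristic not 2. The definitions `JD.IsJordan`, `JD.jpow`,
`JD.IsNilpotentAlg` and `JD.IsSpecial` are in `Pool.Agent.H8.JD.Basic`.
-/

namespace Pool.Agent.Results.MP_7d9a72_al.ExactTwelve

universe u v w

/-- Every nilpotent Jordan algebra of dimension at most 11 over a field of characteristic not 2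
is special. -/
theorem lower (F : Type u) [Field F] (h2 : (2 : F) ≠ 0)
    (J : Type v) [NonUnitalNonAssocCommRing J] [Module F J] [IsScalarTower F J J]
    [SMulCommClass F J J] [Module.Finite F J] (hJ : JD.IsJordan J) (hn : JD.IsNilpotentAlg F J)
    (hd : Module.finrank F J ≤ 11) : JD.IsSpecial.{u, v, u} F J :=
  JD.special_any_univ F 11
    (fun J _ _ _ _ _ hJ hn hd => JD.special_of_dim_le_eleven F J h2 hJ hn hd) J hJ hn hd

/-- Let `F` be a field of characteristic not 2. (1) The smallest dimension of a
finite-dimensional nilpotent exceptional Jordan algebra over `F` is 12. (2) Every nilpotent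
Jordan algebra of dimension at most 11 over `F`, in any universe, is special, with the associative
algebra in the universe of `F`. (3) A nilpotent Jordan algebra of dimension 12 is not special for
associative algebras in any universe. -/
theorem result (F : Type u) [Field F] (h2 : (2 : F) ≠ 0) :
    IsLeast {n : ℕ | ∃ (J : Type u) (_ : NonUnitalNonAssocCommRing J) (_ : Module F J)
      (_ : IsScalarTower F J J) (_ : SMulCommClass F J J) (_ : Module.Finite F J),
      JD.IsJordan J ∧ JD.IsNilpotentAlg F J ∧ ¬ JD.IsSpecial.{u, u, u} F J ∧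
        Module.finrank F J = n} 12 ∧
    (∀ (J : Type v) [NonUnitalNonAssocCommRing J] [Module F J] [IsScalarTower F J J]
      [SMulCommClass F J J] [Module.Finite F J], JD.IsJordan J → JD.IsNilpotentAlg F J →
        Module.finrank F J ≤ 11 → JD.IsSpecial.{u, v, u} F J) ∧
    ∃ (J : Type u) (_ : NonUnitalNonAssocCommRing J) (_ : Module F J)
      (_ : IsScalarTower F J J) (_ : SMulCommClass F J J),
      JD.IsJordan J ∧ JD.IsNilpotentAlg F J ∧ ¬ JD.IsSpecial.{u, u, w} F J ∧
        Module.finrank F J = 12 := by
  refine ⟨⟨?_, ?_⟩, ?_, JD.exists_exceptional_twelve F h2⟩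
  · obtain ⟨J, i1, i2, i3, i4, hJ, hn, hs, hd⟩ := JD.exists_exceptional_twelve.{u, u} F h2
    have : Module.Finite F J := Module.finite_of_finrank_pos (by omega)
    exact ⟨J, i1, i2, i3, i4, this, hJ, hn, hs, hd⟩
  · rintro n ⟨J, i1, i2, i3, i4, i5, hJ, hn, hs, rfl⟩
    by_contra hlt
    exact hs (lower F h2 J hJ hn (by omega))
  · intro J _ _ _ _ _ hJ hn hd
    exact lower F h2 J hJ hn hd

end Pool.Agent.Results.MP_7d9a72_al.ExactTwelve
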